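import Pool.Agent.MP_1c76f0_nt.Mg.Mono

namespace Pool.Agent.MP_1c76f0_nt.H6

open Finset Pool.Agent.MP_1c76f0_nt

theorem windowF : ∃ Λ i0 : ℕ, 2 ≤ Λ ∧ ∀ (n : ℕ) (f : ℕ → ℤ), (∀ k, |f k| ≤ 9) →
    (2 : ℤ) ^ n ∣ ∑ k ∈ range n, f k * 10 ^ k → ¬ (5 : ℤ) ∣ ∑ k ∈ range n, f k * 10 ^ k →
    ∀ i, i0 ≤ i → Λ ^ (i + 1) ≤ n → i ≤ #{k ∈ Ico (Λ ^ i) (Λ ^ (i + 1)) | f k ≠ 0} := by
  classical
  obtain ⟨K, B, n0, hB, h⟩ := transfer_mono 20
  refine ⟨2 * K + B, n0, by omega, ?_⟩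
  intro n f hf h2 h5 i hi hn
  set Λ := 2 * K + B
  have hΛ : 2 ≤ Λ := by omega
  set m := Λ ^ i with hm
  have m1 : i < m := Nat.lt_pow_self (by omega)
  set M := Λ ^ (i + 1) with hM
  have m2 : M = Λ * m := by rw [hM, pow_succ']
  have m3 : K * (m + 1) ≤ M := by
    rw [m2]
    calc K * (m + 1) ≤ K * (2 * m) := Nat.mul_le_mul_left _ (by omega)
      _ = 2 * K * m := by ring
      _ ≤ Λ * m := Nat.mul_le_mul_right _ (Nat.le_add_right _ _)
  have m4 : m ≤ M := by rw [m2]; nlinarith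
  set A := {k ∈ Ico m M | f k ≠ 0}
  set w : ℤ := ∑ k ∈ range m, f k * 10 ^ k
  have e0 : ∑ k ∈ A, f k * 10 ^ k = ∑ k ∈ Ico m M, f k * 10 ^ k :=
    sum_filter_of_ne fun k _ hk h0 => hk (by rw [h0, zero_mul])
  have e1 : ∑ k ∈ range n, f k * 10 ^ k =
      (w + ∑ k ∈ A, f k * 10 ^ k) + ∑ k ∈ Ico M n, f k * 10 ^ k := by
    rw [e0]
    simp only [w, range_eq_Ico]
    rw [← sum_Ico_consecutive _ (Nat.zero_le M) hn, ← sum_Ico_consecutive _ (Nat.zero_le m) m4]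
  have e2 : (10 : ℤ) ^ M ∣ ∑ k ∈ Ico M n, f k * 10 ^ k :=
    dvd_sum fun k hk => (pow_dvd_pow _ (mem_Ico.1 hk).1).mul_left _
  have e3 : ∑ o ∈ insertNone A, (o.elim w f) * 10 ^ (o.elim 0 id) =
      w + ∑ k ∈ A, f k * 10 ^ k := by
    rw [sum_insertNone]; simp
  have h4 : (1 : ℤ) ≤ 10 ^ m := one_le_pow₀ (by norm_num)
  have w1 : |w| ≤ 10 ^ (m + 1) := by
    have h1 : |w| ≤ ∑ k ∈ range m, (9 : ℤ) * 10 ^ k := by
      refine (abs_sum_le_sum_abs _ _).trans (sum_le_sum fun k _ => ?_)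
      rw [abs_mul, abs_of_nonneg (by positivity : (0 : ℤ) ≤ 10 ^ k)]
      exact mul_le_mul_of_nonneg_right (hf k) (by positivity)
    rw [geom_nine] at h1
    rw [pow_succ]
    linarith
  by_contra hlt
  have hc : B ^ (insertNone A).card ≤ m + 1 := by
    rw [card_insertNone]
    calc B ^ (A.card + 1) ≤ Λ ^ (A.card + 1) := Nat.pow_le_pow_left (by omega) _
      _ ≤ Λ ^ i := Nat.pow_le_pow_right (by omega) (by omega)
      _ ≤ m + 1 := by omega
  have key := h (m + 1) (by omega) (Option ℕ) (insertNone A) (fun o => o.elim w f)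
    (fun o => o.elim 0 id) (insert w (Icc (-9) 9)) ?_ ?_ ?_ hc ?_
  · rw [e3] at key
    rw [e1] at h5
    exact h5 (dvd_add key (((show (5 : ℤ) ∣ 10 by norm_num).trans
      (dvd_pow_self 10 (by omega))).trans e2))
  · refine (card_insert_le _ _).trans ?_
    rw [Int.card_Icc]
    norm_num
  · intro x hx
    rcases mem_insert.1 hx with rfl | hx
    · exact w1
    · have := mem_Icc.1 hx
      rw [pow_succ, abs_le]
      constructor <;> linarith [this.1, this.2]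
  · rintro (_ | k) _
    · exact mem_insert_self _ _
    · exact mem_insert_of_mem (mem_Icc.2 (abs_le.1 (hf k)))
  · rw [e3]
    rw [e1] at h2
    refine (pow_dvd_pow _ m3).trans ((dvd_add_left ?_).1 ((pow_dvd_pow _ hn).trans h2))
    exact (pow_dvd_pow_of_dvd (by norm_num) _).trans e2

theorem countF : ∃ c : ℝ, 0 < c ∧ ∃ N : ℕ, ∀ n, N ≤ n → ∀ (f : ℕ → ℤ), (∀ k, |f k| ≤ 9) →
    (2 : ℤ) ^ n ∣ ∑ k ∈ range n, f k * 10 ^ k → ¬ (5 : ℤ) ∣ ∑ k ∈ range n, f k * 10 ^ k →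
    ∀ p : ℕ, p ^ 2 ≤ n → c * Real.log n ^ 2 ≤ #{k ∈ Ico p n | f k ≠ 0} := by
  obtain ⟨Λ, i0, hΛ, h⟩ := windowF
  have hl : 0 < Real.log Λ := Real.log_pos (by exact_mod_cast hΛ)
  refine ⟨1 / (16 * Real.log Λ ^ 2), by positivity, Λ ^ (2 * i0 + 4), ?_⟩
  intro n hn f hf h2 h5 p hp
  set I := Nat.log Λ n with hI
  have hn0 : n ≠ 0 := by
    have : 0 < Λ ^ (2 * i0 + 4) := by positivity
    omega
  have I1 : 2 * i0 + 4 ≤ I := Nat.le_log_of_pow_le (by omega) hn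
  have I2 : Λ ^ I ≤ n := Nat.pow_log_le_self Λ hn0
  have I3 : n < Λ ^ (I + 1) := Nat.lt_pow_succ_log_self (by omega) n
  obtain ⟨J0, hJ0⟩ : ∃ J0, J0 = I / 2 + 1 := ⟨_, rfl⟩
  have p1 : p ≤ Λ ^ J0 := by
    have h1 : Λ ^ (I + 1) ≤ (Λ ^ J0) ^ 2 := by
      rw [← pow_mul]
      exact Nat.pow_le_pow_right (by omega) (by omega)
    exact (Nat.pow_le_pow_iff_left two_ne_zero).1 (by omega)
  have key : ∀ J, J0 ≤ J → J ≤ I →
      J * J0 ≤ #{k ∈ Ico (Λ ^ J0) (Λ ^ J) | f k ≠ 0} + J0 * J0 := by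
    intro J hJ
    induction J, hJ using Nat.le_induction with
    | base => intro _; omega
    | succ J hJ ih =>
      intro hJI
      have h1 := ih (by omega)
      have h3 := h n f hf h2 h5 J (by omega) ((Nat.pow_le_pow_right (by omega) hJI).trans I2)
      have h4 : #{k ∈ Ico (Λ ^ J0) (Λ ^ (J + 1)) | f k ≠ 0} =
          #{k ∈ Ico (Λ ^ J0) (Λ ^ J) | f k ≠ 0} +
            #{k ∈ Ico (Λ ^ J) (Λ ^ (J + 1)) | f k ≠ 0} := by
        simp only [card_filter]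
        rw [sum_Ico_consecutive _ (Nat.pow_le_pow_right (by omega) hJ)
          (Nat.pow_le_pow_right (by omega) (by omega))]
      nlinarith
  have k1 := key I (by omega) le_rfl
  have k2 : #{k ∈ Ico (Λ ^ J0) (Λ ^ I) | f k ≠ 0} ≤ #{k ∈ Ico p n | f k ≠ 0} :=
    card_le_card (filter_subset_filter _ (Ico_subset_Ico p1 I2))
  have k3 : (I + 1) ^ 2 ≤ 16 * #{k ∈ Ico p n | f k ≠ 0} := by
    obtain ⟨D, hD⟩ : ∃ D, I = J0 + D := ⟨I - J0, by omega⟩
    have d1 : I + 1 ≤ 2 * J0 := by omega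
    have d2 : I + 1 ≤ 8 * D := by omega
    have d3 : D * J0 ≤ #{k ∈ Ico p n | f k ≠ 0} := by
      have : I * J0 = J0 * J0 + D * J0 := by rw [hD]; ring
      omega
    calc (I + 1) ^ 2 = (I + 1) * (I + 1) := sq _
      _ ≤ (8 * D) * (2 * J0) := Nat.mul_le_mul d2 d1
      _ = 16 * (D * J0) := by ring
      _ ≤ _ := Nat.mul_le_mul_left _ d3
  have k4 : ((I : ℝ) + 1) ^ 2 ≤ 16 * #{k ∈ Ico p n | f k ≠ 0} := by exact_mod_cast k3
  have k5 : Real.log n ≤ (I + 1) * Real.log Λ := by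
    have : (n : ℝ) ≤ (Λ : ℝ) ^ (I + 1) := by exact_mod_cast I3.le
    have h6 := Real.log_le_log (by positivity) this
    rwa [Real.log_pow, Nat.cast_add, Nat.cast_one] at h6
  have k6 : Real.log n ^ 2 ≤ ((I + 1) * Real.log Λ) ^ 2 :=
    pow_le_pow_left₀ (Real.log_natCast_nonneg n) k5 2
  rw [div_mul_eq_mul_div, div_le_iff₀ (by positivity), one_mul]
  rw [mul_pow] at k6
  nlinarith [sq_nonneg (Real.log Λ)]

lemma mod_pow_sum (t m : ℕ) : t % 10 ^ m = ∑ k ∈ range m, t / 10 ^ k % 10 * 10 ^ k := by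
  induction m with
  | zero => simp [Nat.mod_one]
  | succ m ih => rw [sum_range_succ, ← ih, Nat.mod_pow_succ]; ring

lemma dvd_sub_sum (t m : ℕ) :
    (10 : ℤ) ^ m ∣ (t : ℤ) - ∑ k ∈ range m, ((t / 10 ^ k % 10 : ℕ) : ℤ) * 10 ^ k := by
  have h1 : ((t % 10 ^ m : ℕ) : ℤ) = ∑ k ∈ range m, ((t / 10 ^ k % 10 : ℕ) : ℤ) * 10 ^ k := by
    rw [mod_pow_sum, Nat.cast_sum]
    exact sum_congr rfl fun k _ => by rw [Nat.cast_mul, Nat.cast_pow]; rfl
  have h2 : (t : ℤ) = 10 ^ m * ((t / 10 ^ m : ℕ) : ℤ) + ((t % 10 ^ m : ℕ) : ℤ) := by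
    exact_mod_cast (Nat.div_add_mod t (10 ^ m)).symm
  rw [← h1]
  exact ⟨((t / 10 ^ m : ℕ) : ℤ), by linarith⟩

theorem shift_lower : ∃ c : ℝ, 0 < c ∧ ∃ N : ℕ, ∀ n : ℕ, N ≤ n → ∀ t : ℕ, 2 ^ n ∣ t → ¬ 5 ∣ t →
    ∀ p : ℕ, 1 ≤ p → p ^ 2 ≤ n →
    c * Real.log n ^ 2 ≤ #{k ∈ range (n - p) | t / 10 ^ k % 10 ≠ t / 10 ^ (k + p) % 10} := by
  obtain ⟨c, hc, N, h⟩ := countF
  refine ⟨c, hc, N, fun n hn t h2 h5 p hp1 hp => ?_⟩
  have hpn : p ≤ n := le_trans (by nlinarith) hp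
  set d : ℕ → ℤ := fun k => ((t / 10 ^ k % 10 : ℕ) : ℤ) with hd
  have d0 : ∀ k, 0 ≤ d k := fun k => Int.natCast_nonneg _
  have d9 : ∀ k, d k ≤ 9 := fun k => by
    have : t / 10 ^ k % 10 ≤ 9 := by omega
    simp only [hd]
    exact_mod_cast this
  set f : ℕ → ℤ := fun k => (if p ≤ k then d (k - p) else 0) - d k with hf
  have f9 : ∀ k, |f k| ≤ 9 := fun k => by
    simp only [hf]
    rw [abs_le]
    split_ifs
    · constructor <;> linarith [d0 k, d9 k, d0 (k - p), d9 (k - p)]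
    · constructor <;> linarith [d0 k, d9 k]
  have e1 : ∑ k ∈ range n, (if p ≤ k then d (k - p) else 0) * 10 ^ k =
      10 ^ p * ∑ k ∈ range (n - p), d k * 10 ^ k := by
    conv_lhs => rw [show n = p + (n - p) by omega]
    rw [sum_range_add, sum_eq_zero fun k hk => by
      rw [if_neg (by have := mem_range.1 hk; omega), zero_mul], zero_add, mul_sum]
    refine sum_congr rfl fun k _ => ?_
    rw [if_pos (by omega), Nat.add_sub_cancel_left]
    ring
  have e2 : ∑ k ∈ range n, f k * 10 ^ k =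
      10 ^ p * ∑ k ∈ range (n - p), d k * 10 ^ k - ∑ k ∈ range n, d k * 10 ^ k := by
    rw [← e1, ← sum_sub_distrib]
    exact sum_congr rfl fun k _ => by simp only [hf]; ring
  have g1 : (10 : ℤ) ^ n ∣ (t : ℤ) - ∑ k ∈ range n, d k * 10 ^ k := dvd_sub_sum t n
  have g2 : (10 : ℤ) ^ n ∣ 10 ^ p * ((t : ℤ) - ∑ k ∈ range (n - p), d k * 10 ^ k) := by
    conv_lhs => rw [show n = p + (n - p) by omega, pow_add]
    exact mul_dvd_mul_left _ (dvd_sub_sum t (n - p))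
  have e3 : ∑ k ∈ range n, f k * 10 ^ k = (10 ^ p - 1) * (t : ℤ) +
      (((t : ℤ) - ∑ k ∈ range n, d k * 10 ^ k) -
        10 ^ p * ((t : ℤ) - ∑ k ∈ range (n - p), d k * 10 ^ k)) := by
    rw [e2]; ring
  have g3 := dvd_sub g1 g2
  have h2' : (2 : ℤ) ^ n ∣ t := by exact_mod_cast h2
  have h5' : ¬ (5 : ℤ) ∣ t := fun h0 => h5 (by exact_mod_cast h0)
  have t5 : ∀ m, 1 ≤ m → (5 : ℤ) ∣ 10 ^ m := fun m hm =>
    (show (5 : ℤ) ∣ 10 by norm_num).trans (dvd_pow_self 10 (by omega))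
  have key := h n hn f f9
    (by rw [e3]
        exact dvd_add (h2'.mul_left _) ((pow_dvd_pow_of_dvd (by norm_num) _).trans g3))
    (by rw [e3]
        intro h0
        have h1 := (dvd_add_left ((t5 n (by omega)).trans g3)).1 h0
        have h3 : (5 : ℤ) ∣ 10 ^ p * t := (t5 p hp1).mul_right _
        apply h5'
        have h4 := dvd_sub h3 h1
        rwa [show (10 : ℤ) ^ p * t - (10 ^ p - 1) * t = t by ring] at h4) p hp
  refine key.trans (Nat.cast_le.2 (card_le_card_of_injOn (fun k => k - p) ?_ ?_))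
  · intro k hk
    obtain ⟨hk1, hk2⟩ := mem_filter.1 (mem_coe.1 hk)
    obtain ⟨hk3, hk4⟩ := mem_Ico.1 hk1
    refine mem_coe.2 (mem_filter.2 ⟨mem_range.2 (by show k - p < n - p; omega), fun h0 => hk2 ?_⟩)
    simp only [hf, hd, if_pos hk3]
    rw [Nat.sub_add_cancel hk3] at h0
    rw [h0, sub_self]
  · intro a ha b hb hab
    have := (mem_Ico.1 (mem_filter.1 (mem_coe.1 ha)).1).1
    have := (mem_Ico.1 (mem_filter.1 (mem_coe.1 hb)).1).1
    simp only at hab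
    omega

lemma count_card (L : List ℕ) (v : ℕ) :
    L.count v = #{k ∈ range L.length | L.getD k 0 = v} := by
  induction L with
  | nil => simp
  | cons a L ih =>
    rw [card_filter, List.length_cons, sum_range_succ', List.count_cons, ih, card_filter]
    simp

lemma changes_le (d : ℕ → ℕ) (n v : ℕ)
    (h : ∀ k, k + 1 < n → d k ≠ d (k + 1) → d k = v ∨ d (k + 1) = v) :
    #{k ∈ range (n - 1) | d k ≠ d (k + 1)} ≤ 2 * #{k ∈ range n | d k = v} := by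
  have h1 : {k ∈ range (n - 1) | d k ≠ d (k + 1)} ⊆
      {k ∈ range n | d k = v} ∪ {k ∈ range n | d k = v}.image (fun k => k - 1) := by
    intro k hk
    obtain ⟨hk1, hk2⟩ := mem_filter.1 hk
    rw [mem_range] at hk1
    rcases h k (by omega) hk2 with h2 | h2
    · exact mem_union_left _ (mem_filter.2 ⟨mem_range.2 (by omega), h2⟩)
    · exact mem_union_right _
        (mem_image.2 ⟨k + 1, mem_filter.2 ⟨mem_range.2 (by omega), h2⟩, by simp⟩)
  have h2 := (card_le_card h1).trans (card_union_le _ _)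
  have h3 := card_image_le (s := {k ∈ range n | d k = v}) (f := fun k => k - 1)
  omega

/-- The bound for the digit counts of the numbers with digits 1 and 2 follows with shift one. -/
theorem logSquare_of_shift : ∃ c : ℝ, 0 < c ∧ ∃ N : ℕ, ∀ n : ℕ, N ≤ n → ∀ t : ℕ,
    (Nat.digits 10 t).length = n →
    (∀ d ∈ Nat.digits 10 t, d = 1 ∨ d = 2) →
    2 ^ n ∣ t →
    |(((Nat.digits 10 t).count 1 : ℕ) : ℝ) - (n : ℝ) / 2| ≤ (n : ℝ) / 2 - c * Real.log n ^ 2 := by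
  obtain ⟨c, hc, N, h⟩ := shift_lower
  refine ⟨c / 2, by positivity, N + 1, fun n hn t hlen hd h2 => ?_⟩
  set L := Nat.digits 10 t with hL
  have hk : ∀ k, k < n → L.getD k 0 = 1 ∨ L.getD k 0 = 2 := by
    intro k hk
    rw [← hlen] at hk
    rw [List.getD_eq_getElem _ _ hk]
    exact hd _ (List.getElem_mem hk)
  have hg : ∀ k, L.getD k 0 = t / 10 ^ k % 10 := fun k => by
    rw [hL, Nat.getD_digits _ _ (by norm_num)]
  have h5 : ¬ 5 ∣ t := by
    have h1 := hk 0 (by omega)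
    rw [hg] at h1
    omega
  have key := h n (by omega) t h2 h5 1 le_rfl (by omega)
  simp only [← hg] at key
  have c1 := changes_le (fun k => L.getD k 0) n 1 fun k h1 h3 => by
    have := hk k (by omega)
    have := hk (k + 1) h1
    omega
  have c2 := changes_le (fun k => L.getD k 0) n 2 fun k h1 h3 => by
    have := hk k (by omega)
    have := hk (k + 1) h1
    omega
  have c3 : #{k ∈ range n | L.getD k 0 = 1} + #{k ∈ range n | L.getD k 0 = 2} = n := by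
    rw [card_filter, card_filter, ← sum_add_distrib]
    conv_rhs => rw [← card_range n, card_eq_sum_ones]
    refine sum_congr rfl fun k hk' => ?_
    rcases hk k (mem_range.1 hk') with h | h <;> rw [h] <;> norm_num
  have c4 : (#{k ∈ range n | L.getD k 0 = 1} : ℝ) + #{k ∈ range n | L.getD k 0 = 2} = n := by
    exact_mod_cast c3
  have c5 : (#{k ∈ range (n - 1) | L.getD k 0 ≠ L.getD (k + 1) 0} : ℝ) ≤
      2 * #{k ∈ range n | L.getD k 0 = 1} := by exact_mod_cast c1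
  have c6 : (#{k ∈ range (n - 1) | L.getD k 0 ≠ L.getD (k + 1) 0} : ℝ) ≤
      2 * #{k ∈ range n | L.getD k 0 = 2} := by exact_mod_cast c2
  rw [count_card, hlen, abs_le]
  constructor <;> linarith

end Pool.Agent.MP_1c76f0_nt.H6
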